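import Pool.Agent.helper80.RK.Quot

set_option autoImplicit false

open Filter Topology
open scoped CStarAlgebra ComplexOrder MultiplierAlgebra

namespace Pool.Agent.helper23.RK

universe u v

namespace Tr

lemma clamp {B : Type u} [CStarAlgebra B] [PartialOrder B] [StarOrderedRing B] (y : B)
    (hy : IsSelfAdjoint y) :
    ∃ z : B, 0 ≤ z ∧ ‖z‖ ≤ 1 ∧ ∀ a, ‖(z - y) * a‖ ≤ ‖(y * y - y) * a‖ := by
  have hc : Continuous fun t : ℝ => max 0 (min t 1) := by fun_prop
  refine ⟨cfc (fun t : ℝ => max 0 (min t 1)) y, ?_, ?_, ?_⟩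
  · exact cfc_nonneg fun t _ => le_max_left _ _
  · refine norm_cfc_le zero_le_one fun t _ => ?_
    rw [Real.norm_eq_abs, abs_le]
    constructor
    · linarith [le_max_left 0 (min t 1)]
    · exact max_le zero_le_one (min_le_right _ _)
  · intro a
    have h1 : cfc (fun t : ℝ => max 0 (min t 1)) y - y =
        cfc (fun t : ℝ => max 0 (min t 1) - t) y := by
      rw [cfc_sub (fun t : ℝ => max 0 (min t 1)) (fun t : ℝ => t) y (hc.continuousOn)
        continuousOn_id, cfc_id' ℝ y]
    have h2 : y * y - y = cfc (fun t : ℝ => t * t - t) y := by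
      rw [cfc_sub (fun t : ℝ => t * t) (fun t : ℝ => t) y (by fun_prop) continuousOn_id,
        cfc_mul (fun t : ℝ => t) (fun t : ℝ => t) y continuousOn_id continuousOn_id, cfc_id' ℝ y]
    have h3 : (cfc (fun t : ℝ => max 0 (min t 1) - t) y) *
        (cfc (fun t : ℝ => max 0 (min t 1) - t) y) ≤
        (cfc (fun t : ℝ => t * t - t) y) * (cfc (fun t : ℝ => t * t - t) y) := by
      rw [← cfc_mul _ _ y (by fun_prop) (by fun_prop), ← cfc_mul _ _ y (by fun_prop)
        (by fun_prop)]
      refine cfc_mono (fun t _ => ?_) (by fun_prop) (by fun_prop)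
      rcases le_total t 0 with ht | ht
      · rw [min_eq_left (ht.trans zero_le_one), max_eq_left ht]
        have : 0 ≤ t * t * (t * t - 2 * t) := by
          apply mul_nonneg (mul_self_nonneg t)
          nlinarith
        nlinarith
      · rcases le_total t 1 with ht1 | ht1
        · rw [min_eq_left ht1, max_eq_right ht]
          nlinarith [mul_self_nonneg (t * t - t)]
        · rw [min_eq_right ht1, max_eq_right zero_le_one]
          have : (t * t - t) * (t * t - t) - (1 - t) * (1 - t) =
            (t - 1) * (t - 1) * (t * t - 1) := by ring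
          have h5 : 0 ≤ (t - 1) * (t - 1) * (t * t - 1) := by
            apply mul_nonneg (mul_self_nonneg _)
            nlinarith
          linarith
    have hs1 : IsSelfAdjoint (cfc (fun t : ℝ => max 0 (min t 1) - t) y) := cfc_predicate _ _
    have hs2 : IsSelfAdjoint (cfc (fun t : ℝ => t * t - t) y) := cfc_predicate _ _
    rw [h1, h2]
    set p := cfc (fun t : ℝ => max 0 (min t 1) - t) y
    set r := cfc (fun t : ℝ => t * t - t) y
    have h4 : star a * (p * p) * a ≤ star a * (r * r) * a := star_left_conjugate_le_conjugate h3 a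
    have h5 : star (p * a) * (p * a) = star a * (p * p) * a := by
      rw [star_mul, hs1.star_eq]
      simp only [mul_assoc]
    have h6 : star (r * a) * (r * a) = star a * (r * r) * a := by
      rw [star_mul, hs2.star_eq]
      simp only [mul_assoc]
    have h7 : ‖p * a‖ * ‖p * a‖ ≤ ‖r * a‖ * ‖r * a‖ := by
      rw [← CStarRing.norm_star_mul_self, ← CStarRing.norm_star_mul_self, h5, h6]
      refine CStarAlgebra.norm_le_norm_of_nonneg_of_le ?_ h4
      rw [← h5]
      exact star_mul_self_nonneg _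
    exact (mul_self_le_mul_self_iff (norm_nonneg _) (norm_nonneg _)).2 h7

section lift

variable {A : Type u} [NonUnitalCStarAlgebra A] [PartialOrder A] [StarOrderedRing A]

/-- the class of `x : ℕ → A` -/
noncomputable def cls (x : ℕ → A) (h : (fun n => (x n : Unitization ℂ A)) ∈ RR A) : QQ A :=
  Ideal.Quotient.mk (II A) ⟨fun n => (x n : Unitization ℂ A), h⟩

lemma exists_lift [TopologicalSpace.SeparableSpace A] (q : QQ A) (hq : star q = q)
    (hqq : q * q = q) :
    ∃ x : ℕ → A, (∀ n, 0 ≤ x n ∧ ‖x n‖ ≤ 1) ∧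
      ∃ h : (fun n => (x n : Unitization ℂ A)) ∈ RR A, cls x h = q := by
  obtain ⟨y0, rfl⟩ := Ideal.Quotient.mk_surjective q
  set y : RR A := (1 / 2 : ℂ) • (y0 + star y0) with hy
  have hmky : Ideal.Quotient.mk (II A) y = Ideal.Quotient.mk (II A) y0 := by
    have h1 : Ideal.Quotient.mk (II A) y = (1 / 2 : ℂ) • (Ideal.Quotient.mk (II A) y0 +
        Ideal.Quotient.mk (II A) (star y0)) := rfl
    rw [h1, ← star_mk, hq, ← two_smul ℂ, smul_smul]
    norm_num
  have hyn : ∀ n, (y : ℕ → Unitization ℂ A) n = (1 / 2 : ℂ) • ((y0 : ℕ → Unitization ℂ A) n +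
      star ((y0 : ℕ → Unitization ℂ A) n)) := fun n => rfl
  have hsa : ∀ n, IsSelfAdjoint ((y : ℕ → Unitization ℂ A) n) := by
    intro n
    rw [hyn, isSelfAdjoint_iff, star_smul, star_add, star_star, add_comm]
    congr 1
    simp
  have hyy : ∀ a : A, Tendsto (fun n => ((y : ℕ → Unitization ℂ A) n *
      (y : ℕ → Unitization ℂ A) n - (y : ℕ → Unitization ℂ A) n) * (a : Unitization ℂ A))
      atTop (𝓝 0) := by
    have h1 : Ideal.Quotient.mk (II A) (y * y) = Ideal.Quotient.mk (II A) y := by
      rw [map_mul, hmky, hqq]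
    exact Ideal.Quotient.eq.1 h1
  choose z hz0 hz1 hz2 using fun n => clamp ((y : ℕ → Unitization ℂ A) n) (hsa n)
  obtain ⟨w, hw0, hw1, hw2⟩ := exists_approx (A := A)
  set x : ℕ → A := fun n => ((w n : Unitization ℂ A) * z n * (w n : Unitization ℂ A)).snd with hx
  have hxn : ∀ n, (x n : Unitization ℂ A) = (w n : Unitization ℂ A) * z n *
      (w n : Unitization ℂ A) := by
    intro n
    ext
    · simp
    · rfl
  have hwsa : ∀ n, star (w n : Unitization ℂ A) = (w n : Unitization ℂ A) := by
    intro n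
    rw [← Unitization.inr_star, (IsSelfAdjoint.of_nonneg (hw0 n)).star_eq]
  have hx0 : ∀ n, 0 ≤ x n := by
    intro n
    rw [← Unitization.inr_nonneg_iff, hxn]
    nth_rewrite 1 [← hwsa n]
    exact star_left_conjugate_nonneg (hz0 n) _
  have hx1 : ∀ n, ‖x n‖ ≤ 1 := by
    intro n
    rw [← Unitization.norm_inr (𝕜 := ℂ), hxn]
    have h1 : ‖(w n : Unitization ℂ A)‖ ≤ 1 := by
      rw [Unitization.norm_inr]
      exact hw1 n
    calc ‖(w n : Unitization ℂ A) * z n * (w n : Unitization ℂ A)‖
        ≤ ‖(w n : Unitization ℂ A) * z n‖ * ‖(w n : Unitization ℂ A)‖ := norm_mul_le _ _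
      _ ≤ (‖(w n : Unitization ℂ A)‖ * ‖z n‖) * ‖(w n : Unitization ℂ A)‖ := by
          gcongr
          exact norm_mul_le _ _
      _ ≤ (1 * 1) * 1 := by
          gcongr
          exact hz1 n
      _ = 1 := by norm_num
  have hwb : ∃ C : ℝ, ∀ n, ‖(w n : Unitization ℂ A)‖ ≤ C :=
    ⟨1, fun n => by rw [Unitization.norm_inr]; exact hw1 n⟩
  have hzb : ∃ C : ℝ, ∀ n, ‖z n‖ ≤ C := ⟨1, hz1⟩
  have hw2' : ∀ a : A, Tendsto (fun n => (w n : Unitization ℂ A) * (a : Unitization ℂ A) -
      (a : Unitization ℂ A)) atTop (𝓝 0) := by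
    intro a
    have h1 := hw2 a
    rw [tendsto_zero_iff_norm_tendsto_zero] at h1 ⊢
    refine h1.congr fun n => ?_
    rw [← Unitization.inr_mul, ← Unitization.inr_sub, Unitization.norm_inr]
  have hnull : ∀ a : A, Tendsto (fun n => ((x n : Unitization ℂ A) -
      (y : ℕ → Unitization ℂ A) n) * (a : Unitization ℂ A)) atTop (𝓝 0) := by
    intro a
    have t1 : Tendsto (fun n => (w n : Unitization ℂ A) * (z n *
        ((w n : Unitization ℂ A) * (a : Unitization ℂ A) - (a : Unitization ℂ A))))
        atTop (𝓝 0) := bdd_mul_null hwb (bdd_mul_null hzb (hw2' a))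
    have t2 : Tendsto (fun n => (w n : Unitization ℂ A) * ((z n -
        (y : ℕ → Unitization ℂ A) n) * (a : Unitization ℂ A))) atTop (𝓝 0) := by
      refine bdd_mul_null hwb ?_
      have h1 := hyy a
      rw [tendsto_zero_iff_norm_tendsto_zero] at h1 ⊢
      exact squeeze_zero (fun n => norm_nonneg _) (fun n => hz2 n _) h1
    have t3 : Tendsto (fun n => ((w n : Unitization ℂ A) * (a : Unitization ℂ A) -
        (a : Unitization ℂ A)) * (y : ℕ → Unitization ℂ A) n) atTop (𝓝 0) :=
      null_mul_bdd (hw2' a) (RRbdd y)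
    have t4 := bdd_mul_null hwb (RRcentral y a)
    have t5 := RRcentral y a
    have t := (((t1.add t2).add t3).add t4).sub t5
    simp only [add_zero, sub_zero] at t
    refine t.congr fun n => ?_
    rw [hxn]
    simp only [mul_sub, sub_mul, mul_assoc]
    abel
  have hmem : (fun n => (x n : Unitization ℂ A)) ∈ RR A := by
    refine ⟨⟨1, fun n => by rw [Unitization.norm_inr]; exact hx1 n⟩, fun a => ?_⟩
    have t1 := hnull a
    have t2 := RRcentral y a
    have t3 := null_star (hnull (star a))
    have t := (t1.add t2).sub t3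
    simp only [add_zero, sub_zero] at t
    refine t.congr fun n => ?_
    rw [star_mul, star_sub, (hsa n).star_eq, ← Unitization.inr_star, ← Unitization.inr_star,
      star_star, (IsSelfAdjoint.of_nonneg (hx0 n)).star_eq]
    simp only [mul_sub, sub_mul]
    abel
  refine ⟨x, fun n => ⟨hx0 n, hx1 n⟩, hmem, ?_⟩
  rw [← hmky]
  exact Ideal.Quotient.eq.2 hnull

end lift

end Tr

end Pool.Agent.helper23.RK
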