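import Pool.Agent.helper23.RK.Base

set_option autoImplicit false

open Filter Topology
open scoped CStarAlgebra ComplexOrder MultiplierAlgebra

namespace Pool.Agent.helper23.RK

universe u v

namespace Tr

section general

variable {A : Type u} [NonUnitalCStarAlgebra A]

lemma tendsto_of_dense {T : ℕ → A → A} (K : ℝ) (hT : ∀ n a b, ‖T n a - T n b‖ ≤ K * ‖a - b‖)
    {D : ℕ → A} (hD : DenseRange D) (h : ∀ k, Tendsto (fun n => T n (D k)) atTop (𝓝 0)) (a : A) :
    Tendsto (fun n => T n a) atTop (𝓝 0) := by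
  rw [Metric.tendsto_atTop]
  intro ε hε
  obtain ⟨k, hk⟩ := hD.exists_dist_lt a (ε := ε / (2 * (|K| + 1))) (by positivity)
  obtain ⟨N, hN⟩ := Metric.tendsto_atTop.1 (h k) (ε / 2) (by positivity)
  refine ⟨N, fun n hn => ?_⟩
  have h1 := hN n hn
  rw [dist_zero_right] at h1 ⊢
  rw [dist_eq_norm] at hk
  have h2 : K * ‖a - D k‖ ≤ ε / 2 := by
    calc K * ‖a - D k‖ ≤ (|K| + 1) * ‖a - D k‖ := by
          gcongr
          linarith [le_abs_self K]
      _ ≤ (|K| + 1) * (ε / (2 * (|K| + 1))) := by gcongr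
      _ = ε / 2 := by field_simp
  calc ‖T n a‖ = ‖(T n a - T n (D k)) + T n (D k)‖ := by rw [sub_add_cancel]
    _ ≤ ‖T n a - T n (D k)‖ + ‖T n (D k)‖ := norm_add_le _ _
    _ < ε / 2 + ε / 2 := by linarith [hT n a (D k)]
    _ = ε := by ring

lemma norm_act (β : A ≃⋆ₐ[ℂ] A) (a : A) : ‖β a‖ = ‖a‖ :=
  NonUnitalStarAlgHom.norm_map β β.injective a

end general

section loc

variable {A : Type u} [NonUnitalCStarAlgebra A] [PartialOrder A] [StarOrderedRing A]

lemma inv_tendsto : Tendsto (fun n : ℕ => (1 : ℝ) / (n + 1)) atTop (𝓝 0) :=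
  tendsto_one_div_add_atTop_nhds_zero_nat

omit [PartialOrder A] [StarOrderedRing A] in
/-- a bound by `1 / (n + 1)` for `n ≥ k` gives convergence -/
lemma tendsto_of_bound {X : ℕ → A} (k : ℕ) (h : ∀ n, k ≤ n → ‖X n‖ < 1 / ((n : ℝ) + 1)) :
    Tendsto X atTop (𝓝 0) := by
  rw [tendsto_zero_iff_norm_tendsto_zero]
  refine squeeze_zero' (Eventually.of_forall fun n => norm_nonneg _) ?_ inv_tendsto
  filter_upwards [eventually_ge_atTop k] with n hn using (h n hn).le

/-- the local characterisation of Rokhlin dimension implies the global one -/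
theorem rok_of_local [TopologicalSpace.SeparableSpace A] {G : Type v} [Group G] [Fintype G]
    (α : G →* (A ≃⋆ₐ[ℂ] A)) (d : ℕ)
    (h : ∀ (F : Finset A) (ε : ℝ), 0 < ε → ∃ x : Fin (d + 1) → G → A,
      (∀ l g, 0 ≤ x l g ∧ ‖x l g‖ ≤ 1) ∧
      ∀ a ∈ F, (∀ l g, ‖x l g * a - a * x l g‖ < ε) ∧
        (∀ l g h, ‖(α g (x l h) - x l (g * h)) * a‖ < ε) ∧
        (∀ l g h, g ≠ h → ‖x l g * x l h * a‖ < ε) ∧
        ‖(∑ l, ∑ g, x l g) * a - a‖ < ε) : RokDimLE α d := by
  classical
  set D : ℕ → A := TopologicalSpace.denseSeq A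
  have hD : DenseRange D := TopologicalSpace.denseRange_denseSeq A
  have h' := fun n : ℕ => h ((Finset.range (n + 1)).image D) (1 / ((n : ℝ) + 1)) (by positivity)
  choose x hx1 hx2 using h'
  have hmem : ∀ n k, k ≤ n → D k ∈ (Finset.range (n + 1)).image D := fun n k hk =>
    Finset.mem_image_of_mem _ (Finset.mem_range.2 (by omega))
  refine ⟨fun l g n => x n l g, ?_, ?_, ?_, ?_⟩
  · intro l g
    refine ⟨fun n => hx1 n l g, ?_⟩
    refine tendsto_of_dense (T := fun n a => x n l g * a - a * x n l g) 2 ?_ hD ?_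
    · intro n a b
      have h1 := (hx1 n l g).2
      calc ‖x n l g * a - a * x n l g - (x n l g * b - b * x n l g)‖
          = ‖x n l g * (a - b) - (a - b) * x n l g‖ := by
            congr 1
            rw [mul_sub, sub_mul]
            abel
        _ ≤ ‖x n l g * (a - b)‖ + ‖(a - b) * x n l g‖ := norm_sub_le _ _
        _ ≤ ‖x n l g‖ * ‖a - b‖ + ‖a - b‖ * ‖x n l g‖ :=
            add_le_add (norm_mul_le _ _) (norm_mul_le _ _)
        _ ≤ 1 * ‖a - b‖ + ‖a - b‖ * 1 := by gcongr
        _ = 2 * ‖a - b‖ := by ring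
    · intro k
      exact tendsto_of_bound k fun n hn => (hx2 n (D k) (hmem n k hn)).1 l g
  · intro l g h
    refine tendsto_of_dense (T := fun n a => (α g (x n l h) - x n l (g * h)) * a) 2 ?_ hD ?_
    · intro n a b
      have h1 := (hx1 n l h).2
      have h2 := (hx1 n l (g * h)).2
      calc ‖(α g (x n l h) - x n l (g * h)) * a - (α g (x n l h) - x n l (g * h)) * b‖
          = ‖(α g (x n l h) - x n l (g * h)) * (a - b)‖ := by rw [mul_sub]
        _ ≤ ‖α g (x n l h) - x n l (g * h)‖ * ‖a - b‖ := norm_mul_le _ _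
        _ ≤ (‖α g (x n l h)‖ + ‖x n l (g * h)‖) * ‖a - b‖ := by
            gcongr
            exact norm_sub_le _ _
        _ ≤ (1 + 1) * ‖a - b‖ := by
            gcongr
            rw [norm_act]
            exact h1
        _ = 2 * ‖a - b‖ := by ring
    · intro k
      exact tendsto_of_bound k fun n hn => (hx2 n (D k) (hmem n k hn)).2.1 l g h
  · intro l g h hgh a
    simp only [Pi.zero_apply, sub_zero]
    refine tendsto_of_dense (T := fun n a => x n l g * x n l h * a) 1 ?_ hD ?_ a
    · intro n a b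
      have h1 := (hx1 n l h).2
      have h2 := (hx1 n l g).2
      calc ‖x n l g * x n l h * a - x n l g * x n l h * b‖
          = ‖x n l g * x n l h * (a - b)‖ := by rw [mul_sub]
        _ ≤ ‖x n l g * x n l h‖ * ‖a - b‖ := norm_mul_le _ _
        _ ≤ (‖x n l g‖ * ‖x n l h‖) * ‖a - b‖ := by
            gcongr
            exact norm_mul_le _ _
        _ ≤ (1 * 1) * ‖a - b‖ := by gcongr
        _ = 1 * ‖a - b‖ := by ring
    · intro k
      exact tendsto_of_bound k fun n hn => (hx2 n (D k) (hmem n k hn)).2.2.1 l g h hgh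
  · intro a
    rw [← tendsto_sub_nhds_zero_iff]
    set K : ℝ := (Fintype.card (Fin (d + 1)) * Fintype.card G : ℝ) + 1
    refine tendsto_of_dense (T := fun n a => (∑ l, ∑ g, x n l g) * a - a) K ?_ hD ?_ a
    · intro n a b
      have hn : ‖∑ l, ∑ g, x n l g‖ ≤ Fintype.card (Fin (d + 1)) * Fintype.card G := by
        calc ‖∑ l, ∑ g, x n l g‖ ≤ ∑ l, ‖∑ g, x n l g‖ := norm_sum_le _ _
          _ ≤ ∑ _l : Fin (d + 1), (Fintype.card G : ℝ) := by
              refine Finset.sum_le_sum fun l _ => ?_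
              calc ‖∑ g, x n l g‖ ≤ ∑ g, ‖x n l g‖ := norm_sum_le _ _
                _ ≤ ∑ _g : G, (1 : ℝ) := Finset.sum_le_sum fun g _ => (hx1 n l g).2
                _ = Fintype.card G := by simp
          _ = _ := by simp
      calc ‖(∑ l, ∑ g, x n l g) * a - a - ((∑ l, ∑ g, x n l g) * b - b)‖
          = ‖(∑ l, ∑ g, x n l g) * (a - b) - (a - b)‖ := by
            congr 1
            rw [mul_sub]
            abel
        _ ≤ ‖(∑ l, ∑ g, x n l g) * (a - b)‖ + ‖a - b‖ := norm_sub_le _ _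
        _ ≤ ‖∑ l, ∑ g, x n l g‖ * ‖a - b‖ + ‖a - b‖ := by
            gcongr
            exact norm_mul_le _ _
        _ ≤ (Fintype.card (Fin (d + 1)) * Fintype.card G) * ‖a - b‖ + ‖a - b‖ := by gcongr
        _ = K * ‖a - b‖ := by ring
    · intro k
      exact tendsto_of_bound k fun n hn => (hx2 n (D k) (hmem n k hn)).2.2.2

/-- the sequence `s` -/
lemma exists_seq_s [TopologicalSpace.SeparableSpace A] {G : Type v} [Group G] 
    (α : G →* (A ≃⋆ₐ[ℂ] A))
    (hS : ∀ (F : Finset A) (ε : ℝ), 0 < ε → ∃ s : A, ‖s‖ ≤ 1 ∧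
      (∀ a ∈ F, ‖star s * a * s - a‖ < ε) ∧
      ∀ a ∈ F, ∀ g, g ≠ 1 → ‖star s * a * α g s‖ < ε) :
    ∃ s : ℕ → A, (∀ n, ‖s n‖ ≤ 1) ∧
      (∀ a, Tendsto (fun n => star (s n) * a * s n - a) atTop (𝓝 0)) ∧
      ∀ g, g ≠ 1 → ∀ a, Tendsto (fun n => star (s n) * a * α g (s n)) atTop (𝓝 0) := by
  classical
  set D : ℕ → A := TopologicalSpace.denseSeq A
  have hD : DenseRange D := TopologicalSpace.denseRange_denseSeq A
  have h' := fun n : ℕ => hS ((Finset.range (n + 1)).image D) (1 / ((n : ℝ) + 1)) (by positivity)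
  choose s hs1 hs2 hs3 using h'
  have hmem : ∀ n k, k ≤ n → D k ∈ (Finset.range (n + 1)).image D := fun n k hk =>
    Finset.mem_image_of_mem _ (Finset.mem_range.2 (by omega))
  refine ⟨s, hs1, ?_, ?_⟩
  · refine tendsto_of_dense (T := fun n a => star (s n) * a * s n - a) 2 ?_ hD ?_
    · intro n a b
      have h1 := hs1 n
      calc ‖star (s n) * a * s n - a - (star (s n) * b * s n - b)‖
          = ‖star (s n) * (a - b) * s n - (a - b)‖ := by
            congr 1
            rw [mul_sub, sub_mul]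
            abel
        _ ≤ ‖star (s n) * (a - b) * s n‖ + ‖a - b‖ := norm_sub_le _ _
        _ ≤ ‖s n‖ * ‖a - b‖ * ‖s n‖ + ‖a - b‖ := by
            gcongr
            refine (norm_mul_le _ _).trans ?_
            gcongr
            refine (norm_mul_le _ _).trans ?_
            rw [norm_star]
        _ ≤ 1 * ‖a - b‖ * 1 + ‖a - b‖ := by gcongr
        _ = 2 * ‖a - b‖ := by ring
    · intro k
      exact tendsto_of_bound k fun n hn => hs2 n (D k) (hmem n k hn)
  · intro g hg
    refine tendsto_of_dense (T := fun n a => star (s n) * a * α g (s n)) 1 ?_ hD ?_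
    · intro n a b
      have h1 := hs1 n
      calc ‖star (s n) * a * α g (s n) - star (s n) * b * α g (s n)‖
          = ‖star (s n) * (a - b) * α g (s n)‖ := by
            congr 1
            rw [mul_sub, sub_mul]
        _ ≤ ‖s n‖ * ‖a - b‖ * ‖s n‖ := by
            refine (norm_mul_le _ _).trans ?_
            rw [norm_act]
            gcongr
            refine (norm_mul_le _ _).trans ?_
            rw [norm_star]
        _ ≤ 1 * ‖a - b‖ * 1 := by gcongr
        _ = 1 * ‖a - b‖ := by ring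
    · intro k
      exact tendsto_of_bound k fun n hn => hs3 n (D k) (hmem n k hn) g hg

lemma seq_central {s : ℕ → A} (hs : ∀ n, ‖s n‖ ≤ 1)
    (h : ∀ a, Tendsto (fun n => star (s n) * a * s n - a) atTop (𝓝 0)) (a : A) :
    Tendsto (fun n => s n * a - a * s n) atTop (𝓝 0) := by
  set Z : ℕ → A := fun n => (star (s n) * (star a * a) * s n - star a * a) -
    (star (s n) * star a * s n - star a) * a - star a * (star (s n) * a * s n - a) with hZ
  have hZ0 : Tendsto Z atTop (𝓝 0) := by
    have h1 := h (star a * a)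
    have h2 := (h (star a)).mul_const a
    have h3 := (h a).const_mul (star a)
    have := (h1.sub h2).sub h3
    simpa using this
  have key : ∀ n, star (a * s n - s n * a) * (a * s n - s n * a) =
      Z n + (star a * (star (s n) * s n) * a - star a * a) := by
    intro n
    simp only [hZ, star_sub, star_mul, mul_sub, sub_mul, mul_assoc]
    abel
  have hle : ∀ n, star (a * s n - s n * a) * (a * s n - s n * a) ≤ Z n := by
    intro n
    rw [key n]
    have h1 : star a * (star (s n) * s n) * a ≤ ‖star (s n) * s n‖ • (star a * a) :=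
      CStarAlgebra.star_left_conjugate_le_norm_smul
    have h2 : ‖star (s n) * s n‖ • (star a * a) ≤ star a * a := by
      have h3 : ‖star (s n) * s n‖ ≤ 1 := by
        rw [CStarRing.norm_star_mul_self]
        nlinarith [hs n, norm_nonneg (s n)]
      have h4 : 0 ≤ (1 - ‖star (s n) * s n‖) • (star a * a) :=
        smul_nonneg (sub_nonneg.2 h3) (star_mul_self_nonneg a)
      rw [sub_smul, one_smul] at h4
      exact sub_nonneg.1 h4
    have h5 : star a * (star (s n) * s n) * a - star a * a ≤ 0 := sub_nonpos.2 (h1.trans h2)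
    exact add_le_of_nonpos_right h5
  have hnorm : ∀ n, ‖a * s n - s n * a‖ * ‖a * s n - s n * a‖ ≤ ‖Z n‖ := by
    intro n
    rw [← CStarRing.norm_star_mul_self]
    exact CStarAlgebra.norm_le_norm_of_nonneg_of_le (star_mul_self_nonneg _) (hle n)
  have hsq : Tendsto (fun n => ‖a * s n - s n * a‖ * ‖a * s n - s n * a‖) atTop (𝓝 0) := by
    refine squeeze_zero (fun n => by positivity) hnorm ?_
    simpa using hZ0.norm
  rw [tendsto_zero_iff_norm_tendsto_zero]
  have h6 : Tendsto (fun n => √(‖a * s n - s n * a‖ * ‖a * s n - s n * a‖)) atTop (𝓝 √0) :=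
    (Real.continuous_sqrt.tendsto 0).comp hsq
  rw [Real.sqrt_zero] at h6
  refine h6.congr fun n => ?_
  rw [Real.sqrt_mul_self (norm_nonneg _), norm_sub_rev]

/-- a sequential approximate unit -/
lemma exists_approx [TopologicalSpace.SeparableSpace A] :
    ∃ w : ℕ → A, (∀ n, 0 ≤ w n) ∧ (∀ n, ‖w n‖ ≤ 1) ∧
      ∀ a, Tendsto (fun n => w n * a - a) atTop (𝓝 0) := by
  classical
  set D : ℕ → A := TopologicalSpace.denseSeq A
  have hD : DenseRange D := TopologicalSpace.denseRange_denseSeq A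
  have hu := CStarAlgebra.increasingApproximateUnit A
  have h' : ∀ n : ℕ, ∃ w : A, 0 ≤ w ∧ ‖w‖ ≤ 1 ∧
      ∀ k ∈ Finset.range (n + 1), ‖w * D k - D k‖ < 1 / ((n : ℝ) + 1) := by
    intro n
    have h1 : ∀ᶠ w in CStarAlgebra.approximateUnit A,
        ∀ k ∈ Finset.range (n + 1), ‖w * D k - D k‖ < 1 / ((n : ℝ) + 1) := by
      rw [Filter.eventually_all_finset]
      intro k _
      have := hu.tendsto_mul_right (D k)
      have h2 := (tendsto_iff_norm_sub_tendsto_zero.1 this).eventually
        (gt_mem_nhds (show (0 : ℝ) < 1 / ((n : ℝ) + 1) by positivity))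
      exact h2
    obtain ⟨w, hw1, hw2, hw3⟩ := (h1.and (hu.eventually_nonneg.and hu.eventually_norm)).exists
    exact ⟨w, hw2, hw3, hw1⟩
  choose w hw0 hw1 hw2 using h'
  refine ⟨w, hw0, hw1, ?_⟩
  refine tendsto_of_dense (T := fun n a => w n * a - a) 2 ?_ hD ?_
  · intro n a b
    have h1 := hw1 n
    calc ‖w n * a - a - (w n * b - b)‖
        = ‖w n * (a - b) - (a - b)‖ := by
          congr 1
          rw [mul_sub]
          abel
      _ ≤ ‖w n * (a - b)‖ + ‖a - b‖ := norm_sub_le _ _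
      _ ≤ ‖w n‖ * ‖a - b‖ + ‖a - b‖ := by
          gcongr
          exact norm_mul_le _ _
      _ ≤ 1 * ‖a - b‖ + ‖a - b‖ := by gcongr
      _ = 2 * ‖a - b‖ := by ring
  · intro k
    exact tendsto_of_bound k fun n hn => hw2 n k (Finset.mem_range.2 (by omega))

end loc

end Tr

end Pool.Agent.helper23.RK
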