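import Pool.Agent.helper80.RK.Loc

set_option autoImplicit false

open Filter Topology
open scoped CStarAlgebra ComplexOrder MultiplierAlgebra

namespace Pool.Agent.helper23.RK

universe u v

namespace Tr

section null

variable {B : Type u} [NonUnitalNormedRing B]

lemma bdd_mul_null {x y : ℕ → B} (hx : ∃ C : ℝ, ∀ n, ‖x n‖ ≤ C) (hy : Tendsto y atTop (𝓝 0)) :
    Tendsto (fun n => x n * y n) atTop (𝓝 0) := by
  obtain ⟨C, hC⟩ := hx
  rw [tendsto_zero_iff_norm_tendsto_zero] at hy ⊢
  refine squeeze_zero (fun n => norm_nonneg _) (fun n => (norm_mul_le _ _).trans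
    (mul_le_mul_of_nonneg_right (hC n) (norm_nonneg _))) ?_
  simpa using hy.const_mul C

lemma null_mul_bdd {x y : ℕ → B} (hx : Tendsto x atTop (𝓝 0)) (hy : ∃ C : ℝ, ∀ n, ‖y n‖ ≤ C) :
    Tendsto (fun n => x n * y n) atTop (𝓝 0) := by
  obtain ⟨C, hC⟩ := hy
  rw [tendsto_zero_iff_norm_tendsto_zero] at hx ⊢
  refine squeeze_zero (fun n => norm_nonneg _) (fun n => (norm_mul_le _ _).trans
    (mul_le_mul_of_nonneg_left (hC n) (norm_nonneg _))) ?_
  simpa using hx.mul_const C

lemma null_star [StarRing B] [NormedStarGroup B] {x : ℕ → B} (hx : Tendsto x atTop (𝓝 0)) :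
    Tendsto (fun n => star (x n)) atTop (𝓝 0) := by
  rw [tendsto_zero_iff_norm_tendsto_zero] at hx ⊢
  simpa only [norm_star] using hx

end null

section ring

variable (A : Type u) [NonUnitalCStarAlgebra A]

/-- bounded central sequences in the unitization -/
noncomputable def RR : StarSubalgebra ℂ (ℕ → Unitization ℂ A) where
  carrier := {x | (∃ C : ℝ, ∀ n, ‖x n‖ ≤ C) ∧
    ∀ a : A, Tendsto (fun n => x n * (a : Unitization ℂ A) - (a : Unitization ℂ A) * x n)
      atTop (𝓝 0)}
  mul_mem' := by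
    rintro x y ⟨hx, hx'⟩ ⟨hy, hy'⟩
    refine ⟨?_, fun a => ?_⟩
    · obtain ⟨C, hC⟩ := hx
      obtain ⟨D, hD⟩ := hy
      refine ⟨C * D, fun n => (norm_mul_le _ _).trans ?_⟩
      exact mul_le_mul (hC n) (hD n) (norm_nonneg _) ((norm_nonneg _).trans (hC n))
    · have h1 := bdd_mul_null hx (hy' a)
      have h2 := null_mul_bdd (hx' a) hy
      have h3 := h1.add h2
      rw [add_zero] at h3
      refine h3.congr fun n => ?_
      simp only [Pi.mul_apply, mul_sub, sub_mul, mul_assoc]
      abel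
  add_mem' := by
    rintro x y ⟨hx, hx'⟩ ⟨hy, hy'⟩
    refine ⟨?_, fun a => ?_⟩
    · obtain ⟨C, hC⟩ := hx
      obtain ⟨D, hD⟩ := hy
      exact ⟨C + D, fun n => (norm_add_le _ _).trans (add_le_add (hC n) (hD n))⟩
    · have h3 := (hx' a).add (hy' a)
      rw [add_zero] at h3
      refine h3.congr fun n => ?_
      simp only [Pi.add_apply, mul_add, add_mul]
      abel
  algebraMap_mem' := by
    intro r
    refine ⟨⟨‖algebraMap ℂ (Unitization ℂ A) r‖, fun n => le_rfl⟩, fun a => ?_⟩
    have : ∀ n : ℕ, (algebraMap ℂ (ℕ → Unitization ℂ A) r) n * (a : Unitization ℂ A) -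
        (a : Unitization ℂ A) * (algebraMap ℂ (ℕ → Unitization ℂ A) r) n = 0 := by
      intro n
      rw [Pi.algebraMap_apply, Algebra.commutes, sub_self]
    simp only [this]
    exact tendsto_const_nhds
  star_mem' := by
    rintro x ⟨hx, hx'⟩
    refine ⟨?_, fun a => ?_⟩
    · obtain ⟨C, hC⟩ := hx
      refine ⟨C, fun n => ?_⟩
      rw [Pi.star_apply, norm_star]
      exact hC n
    · have h3 := (null_star (hx' (star a))).neg
      rw [neg_zero] at h3
      refine h3.congr fun n => ?_
      simp only [Pi.star_apply, star_sub, star_mul, Unitization.inr_star, star_star]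
      abel

variable {A}

lemma RRbdd (x : RR A) : ∃ C : ℝ, ∀ n, ‖(x : ℕ → Unitization ℂ A) n‖ ≤ C := x.2.1

lemma RRcentral (x : RR A) (a : A) : Tendsto (fun n => (x : ℕ → Unitization ℂ A) n *
    (a : Unitization ℂ A) - (a : Unitization ℂ A) * (x : ℕ → Unitization ℂ A) n)
      atTop (𝓝 0) := x.2.2 a

variable (A)

/-- central sequences annihilating `A` -/
noncomputable def II : Ideal (RR A) where
  carrier := {x | ∀ a : A, Tendsto (fun n => (x : ℕ → Unitization ℂ A) n * (a : Unitization ℂ A))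
    atTop (𝓝 0)}
  add_mem' := by
    intro x y hx hy a
    have h3 := (hx a).add (hy a)
    rw [add_zero] at h3
    refine h3.congr fun n => ?_
    rw [← add_mul]
    rfl
  zero_mem' := by
    intro a
    have : ∀ n : ℕ, ((0 : RR A) : ℕ → Unitization ℂ A) n * (a : Unitization ℂ A) = 0 := by
      intro n
      exact zero_mul _
    simp only [this]
    exact tendsto_const_nhds
  smul_mem' := by
    intro c x hx a
    have h1 := bdd_mul_null (RRbdd c) (hx a)
    refine h1.congr fun n => ?_
    rw [← mul_assoc]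
    rfl

lemma mem_II {x : RR A} : x ∈ II A ↔ ∀ a : A, Tendsto (fun n => (x : ℕ → Unitization ℂ A) n *
    (a : Unitization ℂ A)) atTop (𝓝 0) := Iff.rfl

instance : (II A).IsTwoSided where
  mul_mem_of_left := by
    intro x y hx a
    have h1 := bdd_mul_null (RRbdd x) (RRcentral y a)
    have h2 := null_mul_bdd (hx a) (RRbdd y)
    have h3 := h1.add h2
    rw [add_zero] at h3
    refine h3.congr fun n => ?_
    rw [show ((x * y : RR A) : ℕ → Unitization ℂ A) n = (x : ℕ → Unitization ℂ A) n *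
      (y : ℕ → Unitization ℂ A) n from rfl, mul_sub, mul_assoc, mul_assoc]
    abel

variable {A}

lemma star_mem_II {x : RR A} (hx : x ∈ II A) : star x ∈ II A := by
  intro a
  have h1 := null_star (hx (star a))
  have h2 := RRcentral (star x) a
  have h3 := h1.add h2
  rw [add_zero] at h3
  refine h3.congr fun n => ?_
  rw [star_mul, Unitization.inr_star, star_star]
  rw [show ((star x : RR A) : ℕ → Unitization ℂ A) n = star ((x : ℕ → Unitization ℂ A) n)
    from rfl]
  abel

variable (A)

/-- the central sequence algebra -/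
abbrev QQ : Type u := RR A ⧸ II A

/-- the adjoint on the quotient, as a ring homomorphism to the opposite ring -/
noncomputable def starHom : QQ A →+* (QQ A)ᵐᵒᵖ :=
  Ideal.Quotient.lift (II A) ((Ideal.Quotient.mk (II A)).op.comp
    (starRingEquiv : RR A ≃+* (RR A)ᵐᵒᵖ).toRingHom) (by
    intro x hx
    have : (Ideal.Quotient.mk (II A)) (star x) = 0 := Ideal.Quotient.eq_zero_iff_mem.2
      (star_mem_II hx)
    exact congrArg MulOpposite.op this)

noncomputable instance : StarRing (QQ A) where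
  star x := (starHom A x).unop
  star_involutive x := by
    obtain ⟨y, rfl⟩ := Ideal.Quotient.mk_surjective x
    change Ideal.Quotient.mk (II A) (star (star y)) = _
    rw [star_star]
  star_mul x y := by
    change (starHom A (x * y)).unop = (starHom A y).unop * (starHom A x).unop
    rw [map_mul, MulOpposite.unop_mul]
  star_add x y := by
    change (starHom A (x + y)).unop = (starHom A x).unop + (starHom A y).unop
    rw [map_add, MulOpposite.unop_add]

variable {A}

lemma star_mk (y : RR A) : star (Ideal.Quotient.mk (II A) y) = Ideal.Quotient.mk (II A) (star y) :=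
  rfl

instance : StarModule ℂ (QQ A) where
  star_smul c x := by
    obtain ⟨y, rfl⟩ := Ideal.Quotient.mk_surjective x
    have h1 : ∀ (c : ℂ) (y : RR A), c • Ideal.Quotient.mk (II A) y =
      Ideal.Quotient.mk (II A) (c • y) := fun _ _ => rfl
    rw [h1, star_mk, star_mk, h1, star_smul]

/-- an automorphism acts on sequences -/
noncomputable def seqMap (β : A ≃⋆ₐ[ℂ] A) : RR A →⋆ₐ[ℂ] RR A where
  toFun x := ⟨fun n => Unitization.starMap (R := ℂ) (β : A →⋆ₙₐ[ℂ] A)
    ((x : ℕ → Unitization ℂ A) n), by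
    obtain ⟨C, hC⟩ := RRbdd x
    refine ⟨⟨C, fun n => ?_⟩, fun a => ?_⟩
    · exact (NonUnitalStarAlgHom.norm_apply_le
        (Unitization.starMap (R := ℂ) (β : A →⋆ₙₐ[ℂ] A)) _).trans (hC n)
    · have h1 := RRcentral x (β.symm a)
      rw [tendsto_zero_iff_norm_tendsto_zero] at h1 ⊢
      refine squeeze_zero (fun n => norm_nonneg _) (fun n => ?_) h1
      have h2 : (a : Unitization ℂ A) = Unitization.starMap (R := ℂ) (β : A →⋆ₙₐ[ℂ] A)
          ((β.symm a : A) : Unitization ℂ A) := by
        rw [Unitization.starMap_inr]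
        congr 1
        exact (β.apply_symm_apply a).symm
      rw [h2, ← map_mul, ← map_mul, ← map_sub]
      exact NonUnitalStarAlgHom.norm_apply_le
        (Unitization.starMap (R := ℂ) (β : A →⋆ₙₐ[ℂ] A)) _⟩
  map_one' := Subtype.ext (funext fun n => map_one _)
  map_mul' x y := Subtype.ext (funext fun n => map_mul _ _ _)
  map_zero' := Subtype.ext (funext fun n => map_zero _)
  map_add' x y := Subtype.ext (funext fun n => map_add _ _ _)
  commutes' r := Subtype.ext (funext fun n =>
    AlgHomClass.commutes (Unitization.starMap (R := ℂ) (β : A →⋆ₙₐ[ℂ] A)) r)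
  map_star' x := Subtype.ext (funext fun n => map_star _ _)

lemma seqMap_mem_II (β : A ≃⋆ₐ[ℂ] A) {x : RR A} (hx : x ∈ II A) : seqMap β x ∈ II A := by
  intro a
  have h1 := hx (β.symm a)
  rw [tendsto_zero_iff_norm_tendsto_zero] at h1 ⊢
  refine squeeze_zero (fun n => norm_nonneg _) (fun n => ?_) h1
  have h2 : (a : Unitization ℂ A) = Unitization.starMap (R := ℂ) (β : A →⋆ₙₐ[ℂ] A)
      ((β.symm a : A) : Unitization ℂ A) := by
    rw [Unitization.starMap_inr]
    congr 1
    exact (β.apply_symm_apply a).symm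
  rw [h2, show (seqMap β x : ℕ → Unitization ℂ A) n = Unitization.starMap (R := ℂ)
    (β : A →⋆ₙₐ[ℂ] A) ((x : ℕ → Unitization ℂ A) n) from rfl, ← map_mul]
  exact NonUnitalStarAlgHom.norm_apply_le
    (Unitization.starMap (R := ℂ) (β : A →⋆ₙₐ[ℂ] A)) _

/-- the induced automorphism of the central sequence algebra -/
noncomputable def rho (β : A ≃⋆ₐ[ℂ] A) : QQ A →⋆ₐ[ℂ] QQ A where
  toAlgHom := Ideal.Quotient.liftₐ (II A)
    ((Ideal.Quotient.mkₐ ℂ (II A)).comp (seqMap β).toAlgHom)
    (fun x hx => Ideal.Quotient.eq_zero_iff_mem.2 (seqMap_mem_II β hx))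
  map_star' := by
    intro x
    obtain ⟨y, rfl⟩ := Ideal.Quotient.mk_surjective x
    change Ideal.Quotient.mk (II A) (seqMap β (star y)) =
      Ideal.Quotient.mk (II A) (star (seqMap β y))
    rw [map_star]

lemma rho_mk (β : A ≃⋆ₐ[ℂ] A) (y : RR A) :
    rho β (Ideal.Quotient.mk (II A) y) = Ideal.Quotient.mk (II A) (seqMap β y) := rfl

lemma starMap_mul (β γ : A ≃⋆ₐ[ℂ] A) (x : Unitization ℂ A) :
    Unitization.starMap (R := ℂ) ((β * γ : A ≃⋆ₐ[ℂ] A) : A →⋆ₙₐ[ℂ] A) x =
      Unitization.starMap (R := ℂ) (β : A →⋆ₙₐ[ℂ] A)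
        (Unitization.starMap (R := ℂ) (γ : A →⋆ₙₐ[ℂ] A) x) := by
  induction x using Unitization.ind with
  | inl_add_inr r b =>
    simp only [map_add, Unitization.starMap_inr, Unitization.starMap_inl,
      Unitization.algebraMap_eq_inl]
    rfl

lemma starMap_one (x : Unitization ℂ A) :
    Unitization.starMap (R := ℂ) ((1 : A ≃⋆ₐ[ℂ] A) : A →⋆ₙₐ[ℂ] A) x = x := by
  induction x using Unitization.ind with
  | inl_add_inr r b =>
    simp only [map_add, Unitization.starMap_inr, Unitization.starMap_inl,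
      Unitization.algebraMap_eq_inl]
    rfl

lemma seqMap_apply (β : A ≃⋆ₐ[ℂ] A) (x : RR A) (n : ℕ) : (seqMap β x : ℕ → Unitization ℂ A) n =
    Unitization.starMap (R := ℂ) (β : A →⋆ₙₐ[ℂ] A) ((x : ℕ → Unitization ℂ A) n) := rfl

lemma rho_one (x : QQ A) : rho (1 : A ≃⋆ₐ[ℂ] A) x = x := by
  obtain ⟨y, rfl⟩ := Ideal.Quotient.mk_surjective x
  rw [rho_mk]
  congr 1
  exact Subtype.ext (funext fun n => starMap_one _)

lemma rho_mul (β γ : A ≃⋆ₐ[ℂ] A) (x : QQ A) : rho (β * γ) x = rho β (rho γ x) := by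
  obtain ⟨y, rfl⟩ := Ideal.Quotient.mk_surjective x
  rw [rho_mk, rho_mk, rho_mk]
  congr 1
  exact Subtype.ext (funext fun n => starMap_mul _ _ _)

end ring

end Tr

end Pool.Agent.helper23.RK
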